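import Mathlib
import Pool.Agent.X194.AS.Dens

/-!
# MP_9e49d7_an: asymptotic average shadowing and full support without dense minimal points
-/

namespace Pool.Agent.Results.MP_9e49d7_an.ProximalShadowing

open Set Topology Filter MeasureTheory Pool.Agent.X194.AS

/-! ### definitions -/

/-- minimal sets -/
def IsMinimalSet {X : Type} [TopologicalSpace X] (f : X → X) (S : Set X) : Prop :=
  IsClosed S ∧ S.Nonempty ∧ f '' S ⊆ S ∧
    ∀ T ⊆ S, IsClosed T → T.Nonempty → f '' T ⊆ T → T = S

/-- minimal points -/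
def IsMinimalPoint {X : Type} [TopologicalSpace X] (f : X → X) (x : X) : Prop :=
  IsMinimalSet f (closure (range fun n : ℕ => f^[n] x))

/-- the asymptotic average shadowing property -/
def AASP {X : Type} [MetricSpace X] (f : X → X) : Prop :=
  ∀ x : ℕ → X,
    Tendsto (fun n : ℕ => (∑ i ∈ Finset.range n, dist (f (x i)) (x (i + 1))) / n) atTop (𝓝 0) →
    ∃ z : X, Tendsto (fun n : ℕ => (∑ i ∈ Finset.range n, dist (f^[i] z) (x i)) / n) atTop (𝓝 0)

/-- existence of an invariant Borel probability measure of full support -/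
def HasFullSupportMeasure {X : Type} [TopologicalSpace X] (f : X → X) : Prop :=
  letI : MeasurableSpace X := borel X
  ∃ μ : Measure X, IsProbabilityMeasure μ ∧ μ.map f = μ ∧
    ∀ U : Set X, IsOpen U → U.Nonempty → 0 < μ U

/-! ### the space -/

/-- the metric of the sequence space -/
noncomputable instance : MetricSpace (ℕ → Bool) :=
  PiNat.metricSpaceOfDiscreteUniformity fun _ => DiscreteUniformity.eq_principal_setRelId Bool

/-- half lengths -/
def M (k : ℕ) : ℕ := (k + 1) * 4 ^ (k + 1)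

/-- lengths -/
def L (k : ℕ) : ℕ := 2 * M k

lemma M_ge (k : ℕ) : 2 * k < M k := by
  unfold M
  have : 4 ≤ 4 ^ (k + 1) := by
    calc 4 = 4 ^ 1 := (pow_one 4).symm
      _ ≤ 4 ^ (k + 1) := Nat.pow_le_pow_right (by norm_num) (by omega)
  nlinarith

/-- the shift space: two symbols `1` at a distance larger than `L k` are separated by a run of
`k` symbols `0` -/
def XX : Set (ℕ → Bool) :=
  {x | ∀ k a b : ℕ, x a = true → x b = true → a + L k < b →
    ∃ p, a < p ∧ p + k ≤ b ∧ ∀ j < k, x (p + j) = false}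

lemma isClosed_XX : IsClosed XX := by
  have h : XX = ⋂ k : ℕ, ⋂ a : ℕ, ⋂ b : ℕ, {x : ℕ → Bool | x a = true → x b = true → a + L k < b →
    ∃ p, a < p ∧ p + k ≤ b ∧ ∀ j < k, x (p + j) = false} := by
    ext x; simp only [XX, mem_iInter, mem_ofPred_eq]
  rw [h]
  refine isClosed_iInter fun k => isClosed_iInter fun a => isClosed_iInter fun b => ?_
  rw [← isOpen_compl_iff, isOpen_iff_mem_nhds]
  intro x hx
  have hopen : IsOpen (PiNat.cylinder x (b + 1)) := PiNat.isOpen_cylinder _ _ _
  refine mem_of_superset (hopen.mem_nhds (PiNat.self_mem_cylinder _ _)) ?_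
  intro y hy hcon
  rw [PiNat.mem_cylinder_iff] at hy
  apply hx
  intro ha hb hab
  obtain ⟨p, hp1, hp2, hp3⟩ := hcon (by rw [hy a (by omega)]; exact ha)
    (by rw [hy b (by omega)]; exact hb) hab
  exact ⟨p, hp1, hp2, fun j hj => by rw [← hy (p + j) (by omega)]; exact hp3 j hj⟩

/-- the space as a type -/
abbrev Xs : Type := {x : ℕ → Bool // x ∈ XX}

instance : CompactSpace Xs := isCompact_iff_compactSpace.1 isClosed_XX.isCompact

lemma mem_mono {x y : ℕ → Bool} (hx : x ∈ XX) (h : ∀ n, y n = true → x n = true) : y ∈ XX := by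
  intro k a b ha hb hab
  obtain ⟨p, hp1, hp2, hp3⟩ := hx k a b (h a ha) (h b hb) hab
  refine ⟨p, hp1, hp2, fun j hj => ?_⟩
  by_contra hne
  have h1 : y (p + j) = true := by simpa using hne
  exact absurd (h (p + j) h1) (by rw [hp3 j hj]; simp)

/-- the shift -/
def sg (x : Xs) : Xs := ⟨fun n => x.1 (n + 1), by
  intro k a b ha hb hab
  obtain ⟨p, hp1, hp2, hp3⟩ := x.2 k (a + 1) (b + 1) ha hb (by omega)
  refine ⟨p - 1, by omega, by omega, fun j hj => ?_⟩
  show x.1 (p - 1 + j + 1) = false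
  rw [show p - 1 + j + 1 = p + j by omega]
  exact hp3 j hj⟩

lemma sg_iter (n : ℕ) (x : Xs) (i : ℕ) : (sg^[n] x).1 i = x.1 (n + i) := by
  induction n generalizing i with
  | zero => simp
  | succ n ih =>
    rw [Function.iterate_succ_apply']
    show (sg^[n] x).1 (i + 1) = _
    rw [ih, show n + (i + 1) = n + 1 + i by omega]

lemma continuous_sg : Continuous sg := by
  refine Continuous.subtype_mk ?_ _
  exact continuous_pi fun i => (continuous_apply (i + 1)).comp continuous_subtype_val

/-- agreement and distance -/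
lemma dist_le_iff (x y : Xs) (m : ℕ) : dist x y ≤ (1 / 2) ^ m ↔ ∀ j < m, x.1 j = y.1 j := by
  rw [Subtype.dist_eq]
  have h := PiNat.mem_cylinder_iff_dist_le (E := fun _ : ℕ => Bool) (x := y.1) (y := x.1) (n := m)
  rw [PiNat.mem_cylinder_iff] at h
  exact h.symm

lemma dist_le_one (x y : Xs) : dist x y ≤ 1 := by
  have := (dist_le_iff x y 0).2 (fun j hj => by omega)
  simpa using this

lemma exists_cyl {U : Set Xs} (hU : IsOpen U) {x : Xs} (hx : x ∈ U) :
    ∃ l : ℕ, ∀ y : Xs, (∀ j < l, y.1 j = x.1 j) → y ∈ U := by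
  obtain ⟨ε, hε, hb⟩ := Metric.isOpen_iff.1 hU x hx
  obtain ⟨l, hl⟩ := exists_pow_lt_of_lt_one hε (by norm_num : (1 / 2 : ℝ) < 1)
  refine ⟨l, fun y hy => hb ?_⟩
  rw [Metric.mem_ball]
  exact lt_of_le_of_lt ((dist_le_iff y x l).2 hy) hl

/-! ### deterministic runs -/

/-- the positions of the runs -/
def run (k : ℕ) : Set ℕ := {n | M k ≤ n % M k + k}

lemma M_pos (k : ℕ) : 0 < M k := by have := M_ge k; omega

/-- between two far away positions there is a run -/
lemma run_between {k a b : ℕ} (hab : a + L k < b) :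
    ∃ p, a < p ∧ p + k ≤ b ∧ (∀ j < k, p + j ∈ run k) ∧ p + k ≤ a + L k := by
  have hM := M_ge k
  have hL : L k = 2 * M k := rfl
  set j := (a + k) / M k with hj
  have h1 := Nat.div_add_mod (a + k) (M k)
  have h2 := Nat.mod_lt (a + k) (M_pos k)
  rw [← hj] at h1
  have h3 : M k * (j + 1) = M k * j + M k := by ring
  refine ⟨M k * (j + 1) - k, by omega, by omega, fun i hi => ?_, by omega⟩
  show M k ≤ (M k * (j + 1) - k + i) % M k + k
  have h4 : M k * (j + 1) - k + i = (M k - k + i) + M k * j := by omega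
  rw [h4, Nat.add_mul_mod_self_left, Nat.mod_eq_of_lt (by omega)]
  omega

lemma cn_run (k N : ℕ) : cn (run k) N ≤ k * ((N + k) / M k) := by
  classical
  have hM := M_ge k
  have h1 : cn (run k) N ≤
      ((Finset.range k ×ˢ Finset.range ((N + k) / M k)).image
        fun p : ℕ × ℕ => M k * (p.2 + 1) - k + p.1).card := by
    unfold cn
    apply Finset.card_le_card
    intro n hn
    simp only [Finset.mem_filter, Finset.mem_range] at hn
    obtain ⟨hn1, hn2⟩ := hn
    have hn3 : M k ≤ n % M k + k := hn2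
    have h2 := Nat.div_add_mod n (M k)
    have h3 := Nat.mod_lt n (M_pos k)
    have h4 : M k * (n / M k + 1) = M k * (n / M k) + M k := by ring
    rw [Finset.mem_image]
    refine ⟨(n % M k + k - M k, n / M k), ?_, ?_⟩
    · rw [Finset.mem_product, Finset.mem_range, Finset.mem_range]
      refine ⟨by omega, ?_⟩
      rw [Nat.lt_iff_add_one_le, Nat.le_div_iff_mul_le (M_pos k), mul_comm, h4]
      omega
    · show M k * (n / M k + 1) - k + (n % M k + k - M k) = n
      omega
  refine h1.trans (Finset.card_image_le.trans ?_)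
  rw [Finset.card_product, Finset.card_range, Finset.card_range]

lemma cn_run_zero {k N : ℕ} (h : N ≤ k) : cn (run k) N = 0 := by
  have h1 := cn_run k N
  have hM := M_ge k
  rw [Nat.div_eq_of_lt (by omega)] at h1
  omega

lemma cn_run_le (k N : ℕ) : (cn (run k) N : ℝ) ≤ (1 / 2) ^ (k + 1) * N := by
  rcases lt_or_ge (N + k) (M k) with h | h
  · have h1 := cn_run k N
    rw [Nat.div_eq_of_lt h, mul_zero] at h1
    have h2 : cn (run k) N = 0 := by omega
    rw [h2, Nat.cast_zero]; positivity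
  · have hM := M_ge k
    have hNk : k ≤ N := by omega
    have h1 : (cn (run k) N : ℝ) ≤ k * ((N + k) / M k) := by
      refine le_trans (by exact_mod_cast cn_run k N : (cn (run k) N : ℝ) ≤ ((k * ((N + k) / M k) : ℕ) : ℝ)) ?_
      rw [Nat.cast_mul]
      refine mul_le_mul_of_nonneg_left ?_ (Nat.cast_nonneg k)
      refine (Nat.cast_div_le (α := ℝ)).trans ?_
      push_cast
      exact le_rfl
    refine h1.trans ?_
    have hMr : (M k : ℝ) = (k + 1) * 4 ^ (k + 1) := by unfold M; push_cast; ring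
    rw [hMr]
    have hkN : (k : ℝ) ≤ N := by exact_mod_cast hNk
    have hk0 : (0 : ℝ) ≤ k := Nat.cast_nonneg k
    have h4 : (4 : ℝ) ^ (k + 1) = 2 ^ (k + 1) * 2 ^ (k + 1) := by
      rw [← mul_pow]; norm_num
    have h22 : (2 : ℝ) ≤ 2 ^ (k + 1) := by
      calc (2 : ℝ) = 2 ^ 1 := (pow_one 2).symm
        _ ≤ 2 ^ (k + 1) := pow_le_pow_right₀ (by norm_num) (by omega)
    rw [one_div, inv_pow, ← mul_div_assoc, div_le_iff₀ (by positivity), h4]
    have h5 : ((2 : ℝ) ^ (k + 1))⁻¹ * N * ((k + 1) * (2 ^ (k + 1) * 2 ^ (k + 1))) =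
        N * (k + 1) * 2 ^ (k + 1) := by
      field_simp
    rw [h5]
    have h6 : (k : ℝ) * (N + k) ≤ N * (k + 1) * 2 := by nlinarith
    have h7 : (N : ℝ) * (k + 1) * 2 ≤ N * (k + 1) * 2 ^ (k + 1) :=
      mul_le_mul_of_nonneg_left h22 (by positivity)
    linarith

/-! ### the asymptotic average shadowing property -/

theorem aasp : AASP sg := by
  classical
  intro x hx
  set a : ℕ → Bool := fun i => (x i).1 0 with ha
  have hE : ∀ m : ℕ, dz {i | (1 / 2 : ℝ) ^ m < dist (sg (x i)) (x (i + 1))} := fun m =>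
    dz_of_avg (fun i => dist_nonneg) hx (by positivity)
  -- local agreement
  set F : ℕ → Set ℕ := fun m => {i | ∃ j < m, (x i).1 j ≠ a (i + j)} with hF
  have hFz : ∀ m, dz (F m) := by
    intro m
    refine dz_mono ?_ (dz_lt (E := fun t => {i | i + t ∈ {i | (1 / 2 : ℝ) ^ m <
      dist (sg (x i)) (x (i + 1))}}) m fun t _ => dz_shift t (hE m))
    intro i hi
    by_contra hcon
    simp only [mem_ofPred_eq, not_exists, not_and, not_lt] at hcon
    obtain ⟨j, hj, hne⟩ := hi
    apply hne
    have key : ∀ t ≤ j, (x i).1 j = (x (i + t)).1 (j - t) := by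
      intro t ht
      induction t with
      | zero => simp
      | succ t ih =>
        rw [ih (by omega)]
        have h1 := (dist_le_iff _ _ m).1 (hcon t (by omega)) (j - (t + 1)) (by omega)
        have h2 : (sg (x (i + t))).1 (j - (t + 1)) = (x (i + t)).1 (j - (t + 1) + 1) := rfl
        rw [h2, show j - (t + 1) + 1 = j - t by omega] at h1
        rw [h1]
        rfl
    have := key j le_rfl
    rw [this, Nat.sub_self]
  -- violations
  set V : ℕ → Set ℕ := fun k => {c | a c = true ∧ ∃ d, c + L k < d ∧ a d = true ∧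
    ¬ ∃ p, c < p ∧ p + k ≤ d ∧ ∀ j < k, a (p + j) = false} with hV
  have hVF : ∀ k, V k ⊆ F (L k + k + 1) := by
    rintro k c ⟨hc, d, hcd, hd, hno⟩
    by_contra hcF
    have hag : ∀ j < L k + k + 1, (x c).1 j = a (c + j) := by
      intro j hj
      by_contra hne
      exact hcF ⟨j, hj, hne⟩
    -- a close symbol `1`
    obtain ⟨d', hd1, hd2, hd3, hd4⟩ : ∃ d', c + L k < d' ∧ d' ≤ c + L k + k ∧ d' ≤ d ∧ a d' = true := by
      by_contra hcon
      push Not at hcon
      have hdbig : c + L k + k < d := by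
        by_contra h
        push Not at h
        exact absurd hd (hcon d hcd h le_rfl)
      apply hno
      refine ⟨c + L k + 1, by omega, by omega, fun j hj => ?_⟩
      have := hcon (c + L k + 1 + j) (by omega) (by omega) (by omega)
      simpa using this
    have h1 : (x c).1 0 = true := by rw [hag 0 (by omega)]; simpa using hc
    have h2 : (x c).1 (d' - c) = true := by
      rw [hag (d' - c) (by omega), show c + (d' - c) = d' by omega]; exact hd4
    obtain ⟨p, hp1, hp2, hp3⟩ := (x c).2 k 0 (d' - c) h1 h2 (by omega)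
    apply hno
    refine ⟨c + p, by omega, by omega, fun j hj => ?_⟩
    have := hp3 j hj
    rw [hag (p + j) (by omega)] at this
    rw [← this]
    congr 1; omega
  have hVz : ∀ k, dz (V k) := fun k => dz_mono (hVF k) (hFz _)
  -- thresholds
  have hN : ∀ k, ∃ N : ℕ, k ≤ N ∧ ∀ n ≥ N, (cn (V k) n : ℝ) ≤ (1 / 2) ^ (k + 1) * n := by
    intro k
    obtain ⟨N, hN⟩ := Metric.tendsto_atTop.1 (hVz k) ((1 / 2) ^ (k + 1)) (by positivity)
    refine ⟨max (max N k) 1, (le_max_right _ _).trans (le_max_left _ _), fun n hn => ?_⟩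
    have hn1 : 1 ≤ n := (le_max_right _ _).trans hn
    have hnr : (0 : ℝ) < n := by exact_mod_cast hn1
    have h2 := hN n ((le_max_left _ _).trans ((le_max_left _ _).trans hn))
    rw [Real.dist_eq, sub_zero, abs_of_nonneg (by positivity), div_lt_iff₀ hnr] at h2
    exact h2.le
  choose N hNk hN2 using hN
  -- the erased positions
  set Z : ℕ → Set ℕ := fun k => {n | n ∈ run k ∧ n < N k + L k} ∪ {n | n ∈ V k ∧ N k ≤ n} with hZ
  set ZZ : Set ℕ := ⋃ k, Z k with hZZ
  have hZk : ∀ k n, (cn (Z k) n : ℝ) ≤ 2 * (1 / 2) ^ (k + 1) * n := by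
    intro k n
    have h1 : (cn (Z k) n : ℝ) ≤ cn {n | n ∈ run k ∧ n < N k + L k} n + cn {n | n ∈ V k ∧ N k ≤ n} n := by
      exact_mod_cast cn_union _ _ n
    have h2 : (cn {n | n ∈ run k ∧ n < N k + L k} n : ℝ) ≤ (1 / 2) ^ (k + 1) * n := by
      refine le_trans ?_ (cn_run_le k n)
      exact_mod_cast cn_mono (show {n | n ∈ run k ∧ n < N k + L k} ⊆ run k from fun i hi => hi.1) n
    have h3 : (cn {n | n ∈ V k ∧ N k ≤ n} n : ℝ) ≤ (1 / 2) ^ (k + 1) * n := by
      rcases le_or_gt (N k) n with h | h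
      · refine le_trans ?_ (hN2 k n h)
        exact_mod_cast cn_mono (show {n | n ∈ V k ∧ N k ≤ n} ⊆ V k from fun i hi => hi.1) n
      · have : cn {n | n ∈ V k ∧ N k ≤ n} n ≤ cn ∅ n := by
          refine cn_mono' fun i hi hi2 => ?_
          have : N k ≤ i := hi2.2
          omega
        have h0 : cn ∅ n = 0 := by unfold cn; simp
        rw [h0] at this
        have h4 : cn {n | n ∈ V k ∧ N k ≤ n} n = 0 := by omega
        rw [h4, Nat.cast_zero]; positivity
    linarith
  have hZkz : ∀ k, dz (Z k) := fun k =>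
    dz_union (dz_bdd (B := N k + L k) fun i hi => hi.2) (dz_mono (fun i hi => hi.1) (hVz k))
  have hZbig : ∀ k n, n ≤ k → ∀ i < n, i ∉ Z k := by
    rintro k n hnk i hi (h | h)
    · have h1 := cn_run_zero hnk
      have h2 : i ∈ (Finset.range n).filter fun i => i ∈ run k :=
        Finset.mem_filter.2 ⟨Finset.mem_range.2 hi, h.1⟩
      unfold cn at h1
      rw [Finset.card_eq_zero] at h1
      rw [h1] at h2
      simp at h2
    · have := hNk k
      have h2 : N k ≤ i := h.2
      omega
  have hZZz : dz ZZ := by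
    unfold dz
    rw [Metric.tendsto_atTop]
    intro ε hε
    obtain ⟨K, hK⟩ := exists_pow_lt_of_lt_one (show 0 < ε / 4 by positivity)
      (by norm_num : (1 / 2 : ℝ) < 1)
    have h1 : dz {i | ∃ t < K, i ∈ Z t} := dz_lt K fun t _ => hZkz t
    obtain ⟨n0, hn0⟩ := Metric.tendsto_atTop.1 h1 (ε / 2) (by positivity)
    refine ⟨max n0 1, fun n hn => ?_⟩
    have hn1 : 1 ≤ n := (le_max_right _ _).trans hn
    have hnr : (0 : ℝ) < n := by exact_mod_cast hn1
    have h2 := hn0 n ((le_max_left _ _).trans hn)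
    rw [Real.dist_eq, sub_zero, abs_of_nonneg (by positivity), div_lt_iff₀ hnr] at h2
    rw [Real.dist_eq, sub_zero, abs_of_nonneg (by positivity), div_lt_iff₀ hnr]
    have h3 : cn ZZ n ≤ cn {i | ∃ t < K, i ∈ Z t} n + cn (⋃ k ∈ Finset.Ico K (K + n), Z k) n := by
      refine le_trans (cn_mono' fun i hi hiZ => ?_) (cn_union _ _ _)
      obtain ⟨k, hk⟩ := mem_iUnion.1 hiZ
      rcases lt_or_ge k K with h | h
      · exact Or.inl ⟨k, h, hk⟩
      · right
        have hkn : k < n := by
          by_contra hcon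
          push Not at hcon
          exact hZbig k n hcon i hi hk
        rw [mem_iUnion₂]
        exact ⟨k, Finset.mem_Ico.2 ⟨h, by omega⟩, hk⟩
    have h4 : (cn (⋃ k ∈ Finset.Ico K (K + n), Z k) n : ℝ) ≤ 2 * (1 / 2) ^ K * n := by
      have h5 : (cn (⋃ k ∈ Finset.Ico K (K + n), Z k) n : ℝ) ≤
          ∑ k ∈ Finset.Ico K (K + n), (cn (Z k) n : ℝ) := by exact_mod_cast cn_biUnion _ _ n
      refine h5.trans ((Finset.sum_le_sum fun k _ => hZk k n).trans ?_)
      rw [← Finset.sum_mul]
      refine mul_le_mul_of_nonneg_right ?_ hnr.le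
      rw [← Finset.mul_sum]
      refine mul_le_mul_of_nonneg_left ?_ (by norm_num)
      rw [Finset.sum_Ico_eq_sum_range]
      have h6 : ∀ i : ℕ, (1 / 2 : ℝ) ^ (K + i + 1) = (1 / 2) ^ K * ((1 / 2) ^ i * (1 / 2)) := by
        intro i; rw [pow_add, pow_add, pow_one]; ring
      simp only [h6]
      rw [← Finset.mul_sum, ← Finset.sum_mul]
      have h7 : ∑ i ∈ Finset.range (K + n - K), (1 / 2 : ℝ) ^ i ≤ 2 := by
        rw [geom_sum_eq (by norm_num)]
        have : (0 : ℝ) ≤ (1 / 2) ^ (K + n - K) := by positivity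
        rw [div_le_iff_of_neg (by norm_num)]
        linarith
      have h8 : (0 : ℝ) ≤ (1 / 2) ^ K := by positivity
      nlinarith
    have h5 : (cn ZZ n : ℝ) ≤ cn {i | ∃ t < K, i ∈ Z t} n + cn (⋃ k ∈ Finset.Ico K (K + n), Z k) n := by
      exact_mod_cast h3
    nlinarith
  -- the shadowing point
  set b : ℕ → Bool := fun n => if n ∈ ZZ then false else a n with hb
  have hba : ∀ n, b n = true → a n = true := by
    intro n hn
    simp only [hb] at hn
    split_ifs at hn
    exact hn
  have hbZ : ∀ n, n ∈ ZZ → b n = false := fun n hn => by simp only [hb]; rw [if_pos hn]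
  have hbX : b ∈ XX := by
    intro k c d hc hd hcd
    rcases lt_or_ge c (N k) with h | h
    · obtain ⟨p, hp1, hp2, hp3, hp4⟩ := run_between hcd
      refine ⟨p, hp1, hp2, fun j hj => hbZ _ (mem_iUnion.2 ⟨k, Or.inl ⟨hp3 j hj, ?_⟩⟩)⟩
      omega
    · by_contra hno
      have h1 : c ∈ V k := by
        refine ⟨hba c hc, d, hcd, hba d hd, ?_⟩
        rintro ⟨p, hp1, hp2, hp3⟩
        apply hno
        refine ⟨p, hp1, hp2, fun j hj => ?_⟩
        by_contra hne
        have := hba (p + j) (by simpa using hne)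
        rw [hp3 j hj] at this
        simp at this
      have := hbZ c (mem_iUnion.2 ⟨k, Or.inr ⟨h1, h⟩⟩)
      rw [this] at hc
      simp at hc
  refine ⟨⟨b, hbX⟩, avg_of_dz (fun i => dist_nonneg) (fun i => dist_le_one _ _) fun m => ?_⟩
  refine dz_mono ?_ (dz_union (hFz m) (dz_lt (E := fun t => {i | i + t ∈ ZZ}) m
    fun t _ => dz_shift t hZZz))
  intro i hi
  by_contra hcon
  rw [mem_union, not_or] at hcon
  obtain ⟨h1, h2⟩ := hcon
  have h3 : dist (sg^[i] ⟨b, hbX⟩) (x i) ≤ (1 / 2) ^ m := by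
    rw [dist_le_iff]
    intro j hj
    rw [sg_iter]
    show b (i + j) = (x i).1 j
    have h4 : i + j ∉ ZZ := fun h => h2 ⟨j, hj, h⟩
    have h5 : (x i).1 j = a (i + j) := by
      by_contra hne
      exact h1 ⟨j, hj, hne⟩
    simp only [hb]
    rw [if_neg h4, h5]
  exact absurd hi (not_lt.2 h3)

/-! ### full support -/

open Classical in
/-- a point in which a given word occurs with positive frequency -/
noncomputable def yy (x0 : ℕ → Bool) (l k0 : ℕ) : ℕ → Bool := fun n =>
  if n % (l + k0) < l ∧ x0 (n % (l + k0)) = true ∧ ∀ k ≥ k0, n ∉ run k then true else false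

lemma yy_iff {x0 : ℕ → Bool} {l k0 n : ℕ} : yy x0 l k0 n = true ↔
    n % (l + k0) < l ∧ x0 (n % (l + k0)) = true ∧ ∀ k ≥ k0, n ∉ run k := by
  unfold yy; split_ifs with h
  · simp only [true_iff]; exact h
  · simp only [false_iff]; exact h

lemma yy_mem {x0 : ℕ → Bool} (hx : x0 ∈ XX) (l k0 : ℕ) : yy x0 l k0 ∈ XX := by
  intro k a b ha hb hab
  rcases le_or_gt k0 k with hk | hk
  · obtain ⟨p, hp1, hp2, hp3, -⟩ := run_between hab
    refine ⟨p, hp1, hp2, fun j hj => ?_⟩
    by_contra hne
    have h1 : yy x0 l k0 (p + j) = true := by simpa using hne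
    exact (yy_iff.1 h1).2.2 k hk (hp3 j hj)
  · obtain ⟨ha1, ha2, -⟩ := yy_iff.1 ha
    obtain ⟨hb1, hb2, -⟩ := yy_iff.1 hb
    set P := l + k0 with hP
    have hP0 : 0 < P := by omega
    have ea := Nat.div_add_mod a P
    have eb := Nat.div_add_mod b P
    rcases eq_or_ne (a / P) (b / P) with h | h
    · rw [← h] at eb
      obtain ⟨p, hp1, hp2, hp3⟩ := hx k (a % P) (b % P) ha2 hb2 (by omega)
      refine ⟨p + P * (a / P), by omega, by omega, fun j hj => ?_⟩
      by_contra hne
      have h1 : yy x0 l k0 (p + P * (a / P) + j) = true := by simpa using hne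
      have h2 := (yy_iff.1 h1).2.1
      rw [← hP, show p + P * (a / P) + j = (p + j) + P * (a / P) by ring,
        Nat.add_mul_mod_self_left, Nat.mod_eq_of_lt (by omega), hp3 j hj] at h2
      simp at h2
    · have h3 : a / P < b / P := lt_of_le_of_ne (Nat.div_le_div_right (by omega)) h
      have h4 : P * (a / P) + P ≤ P * (b / P) := by
        rw [← Nat.mul_succ]; exact Nat.mul_le_mul_left _ h3
      refine ⟨l + P * (a / P), by omega, by omega, fun j hj => ?_⟩
      by_contra hne
      have h1 : yy x0 l k0 (l + P * (a / P) + j) = true := by simpa using hne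
      have h2 := (yy_iff.1 h1).1
      rw [← hP, show l + P * (a / P) + j = (l + j) + P * (a / P) by ring,
        Nat.add_mul_mod_self_left, Nat.mod_eq_of_lt (by omega)] at h2
      omega

lemma cn_mono_right (E : Set ℕ) {n m : ℕ} (h : n ≤ m) : cn E n ≤ cn E m := by
  classical
  unfold cn
  exact Finset.card_le_card (Finset.filter_subset_filter _ (Finset.range_mono h))

lemma cn_mult {P : ℕ} (hP : 0 < P) (N : ℕ) : N ≤ P * cn {n | n % P = 0} N := by
  classical
  have h1 : (N + P - 1) / P ≤ cn {n | n % P = 0} N := by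
    unfold cn
    calc (N + P - 1) / P = ((Finset.range ((N + P - 1) / P)).image fun j => P * j).card := by
          rw [Finset.card_image_of_injective _ fun a b h => Nat.eq_of_mul_eq_mul_left hP h,
            Finset.card_range]
      _ ≤ _ := by
          apply Finset.card_le_card
          intro n hn
          obtain ⟨j, hj, rfl⟩ := Finset.mem_image.1 hn
          rw [Finset.mem_range] at hj
          simp only [Finset.mem_filter, Finset.mem_range]
          refine ⟨?_, show P * j % P = 0 by simp⟩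
          have h2 : j + 1 ≤ (N + P - 1) / P := hj
          rw [Nat.le_div_iff_mul_le hP] at h2
          have h3 : (j + 1) * P = P * j + P := by ring
          omega
  have h2 := Nat.div_add_mod (N + P - 1) P
  have h3 := Nat.mod_lt (N + P - 1) hP
  have h4 : P * ((N + P - 1) / P) ≤ P * cn {n | n % P = 0} N := Nat.mul_le_mul_left _ h1
  omega

lemma freq {x0 : ℕ → Bool} (l : ℕ) (N : ℕ) (hN : l ≤ N) :
    1 / (2 * (5 * (l : ℝ) + 8)) * N ≤
      cn {n | ∀ j < l, yy x0 l (4 * (l + 2)) (n + j) = x0 j} N := by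
  classical
  set k0 := 4 * (l + 2) with hk0
  set P := l + k0 with hP
  have hP8 : P = 5 * l + 8 := by omega
  set G := {n | ∀ j < l, yy x0 l k0 (n + j) = x0 j} with hG
  set bad : Set ℕ := ⋃ k ∈ Finset.Ico k0 (k0 + (N + l)), ⋃ t ∈ Finset.range l, {n | n + t ∈ run k}
    with hbad
  have h1 : cn {n | n % P = 0} N ≤ cn G N + cn bad N := by
    refine le_trans (cn_mono' fun n hn hnP => ?_) (cn_union _ _ _)
    by_contra hcon
    rw [mem_union, not_or] at hcon
    obtain ⟨h1, h2⟩ := hcon
    apply h1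
    intro j hj
    have hmod : (n + j) % P = j := by
      have : n % P = 0 := hnP
      rw [Nat.add_mod, this, zero_add, Nat.mod_mod, Nat.mod_eq_of_lt (by omega)]
    have hnr : ∀ k ≥ k0, n + j ∉ run k := by
      intro k hk hr
      rcases lt_or_ge k (k0 + (N + l)) with h | h
      · apply h2
        rw [hbad, mem_iUnion₂]
        refine ⟨k, Finset.mem_Ico.2 ⟨hk, h⟩, ?_⟩
        rw [mem_iUnion₂]
        exact ⟨j, Finset.mem_range.2 hj, hr⟩
      · have h3 := cn_run_zero (k := k) (N := N + l) (by omega)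
        unfold cn at h3
        rw [Finset.card_eq_zero] at h3
        have h4 : n + j ∈ (Finset.range (N + l)).filter fun i => i ∈ run k :=
          Finset.mem_filter.2 ⟨Finset.mem_range.2 (by omega), hr⟩
        rw [h3] at h4
        simp at h4
    rw [Bool.eq_iff_iff, yy_iff, ← hP, hmod]
    constructor
    · exact fun h => h.2.1
    · exact fun h => ⟨hj, h, hnr⟩
  have h2 : (cn bad N : ℝ) ≤ l * (N + l) * (1 / 2) ^ k0 := by
    have e1 : (cn bad N : ℝ) ≤ ∑ k ∈ Finset.Ico k0 (k0 + (N + l)),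
        (cn (⋃ t ∈ Finset.range l, {n | n + t ∈ run k}) N : ℝ) := by
      exact_mod_cast cn_biUnion _ _ N
    have e2 : ∀ k, (cn (⋃ t ∈ Finset.range l, {n | n + t ∈ run k}) N : ℝ) ≤
        (l * (N + l)) * (1 / 2) ^ (k + 1) := by
      intro k
      have f1 : (cn (⋃ t ∈ Finset.range l, {n | n + t ∈ run k}) N : ℝ) ≤
          ∑ t ∈ Finset.range l, (cn {n | n + t ∈ run k} N : ℝ) := by
        exact_mod_cast cn_biUnion (fun t => {n | n + t ∈ run k}) (Finset.range l) N
      have f2 : ∀ t ∈ Finset.range l, (cn {n | n + t ∈ run k} N : ℝ) ≤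
          (1 / 2) ^ (k + 1) * (N + l) := by
        intro t ht
        rw [Finset.mem_range] at ht
        have f3 : (cn {n | n + t ∈ run k} N : ℝ) ≤ cn (run k) (N + l) := by
          exact_mod_cast (cn_shift (run k) t N).trans (cn_mono_right _ (by omega))
        refine f3.trans ((cn_run_le k (N + l)).trans (le_of_eq ?_))
        push_cast; ring
      refine f1.trans ((Finset.sum_le_sum f2).trans (le_of_eq ?_))
      rw [Finset.sum_const, Finset.card_range, nsmul_eq_mul]
      ring
    refine e1.trans ((Finset.sum_le_sum fun k _ => e2 k).trans ?_)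
    rw [← Finset.mul_sum]
    refine mul_le_mul_of_nonneg_left ?_ (by positivity)
    rw [Finset.sum_Ico_eq_sum_range]
    have h6 : ∀ i : ℕ, (1 / 2 : ℝ) ^ (k0 + i + 1) = (1 / 2) ^ k0 * ((1 / 2) ^ i * (1 / 2)) := by
      intro i; rw [pow_add, pow_add, pow_one]; ring
    simp only [h6]
    rw [← Finset.mul_sum, ← Finset.sum_mul]
    have h7 : ∑ i ∈ Finset.range (k0 + (N + l) - k0), (1 / 2 : ℝ) ^ i ≤ 2 := by
      rw [geom_sum_eq (by norm_num)]
      have : (0 : ℝ) ≤ (1 / 2) ^ (k0 + (N + l) - k0) := by positivity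
      rw [div_le_iff_of_neg (by norm_num)]
      linarith
    have h8 : (0 : ℝ) ≤ (1 / 2) ^ k0 := by positivity
    nlinarith
  have h3 : (N : ℝ) ≤ (5 * l + 8) * cn {n | n % P = 0} N := by
    have := cn_mult (P := P) (by omega) N
    have h4 : (N : ℝ) ≤ ((P * cn {n | n % P = 0} N : ℕ) : ℝ) := by exact_mod_cast this
    rw [Nat.cast_mul, hP8] at h4
    push_cast at h4
    rw [hP8]
    exact h4
  have h4 : (l : ℝ) * (1 / 2) ^ k0 * (4 * (5 * l + 8)) ≤ 1 := by
    have f1 : (l : ℝ) + 1 ≤ 2 ^ l := by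
      have : l + 1 ≤ 2 ^ l := Nat.lt_two_pow_self
      exact_mod_cast this
    have f2 : (2 : ℝ) ^ k0 = (4 * 2 ^ l) ^ 4 := by
      rw [hk0, mul_comm 4 (l + 2), pow_mul, pow_add]; ring
    have hl0 : (0 : ℝ) ≤ l := Nat.cast_nonneg l
    have f3 : (4 * ((l : ℝ) + 1)) ^ 4 ≤ 2 ^ k0 := by
      rw [f2]
      exact pow_le_pow_left₀ (by positivity) (by linarith) 4
    have f4 : (l : ℝ) * (4 * (5 * l + 8)) ≤ (4 * ((l : ℝ) + 1)) ^ 4 := by
      have g1 : (1 : ℝ) ≤ (l + 1) ^ 2 := by nlinarith
      have g2 : (4 * ((l : ℝ) + 1)) ^ 4 = 256 * ((l + 1) ^ 2 * (l + 1) ^ 2) := by ring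
      rw [g2]
      nlinarith
    rw [one_div, inv_pow, mul_assoc, mul_comm _ (4 * (5 * (l : ℝ) + 8)), ← mul_assoc,
      ← div_eq_mul_inv, div_le_one (by positivity)]
    exact f4.trans f3
  have h5 : (cn {n | n % P = 0} N : ℝ) ≤ cn G N + cn bad N := by exact_mod_cast h1
  have hlN : (l : ℝ) ≤ N := by exact_mod_cast hN
  have hN0 : (0 : ℝ) ≤ N := Nat.cast_nonneg N
  have hl0 : (0 : ℝ) ≤ l := Nat.cast_nonneg l
  rw [div_mul_eq_mul_div, one_mul, div_le_iff₀ (by positivity)]
  have h6 : (cn bad N : ℝ) * (4 * (5 * l + 8)) ≤ 2 * N := by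
    calc (cn bad N : ℝ) * (4 * (5 * l + 8)) ≤ (l * (N + l) * (1 / 2) ^ k0) * (4 * (5 * l + 8)) :=
          mul_le_mul_of_nonneg_right h2 (by positivity)
      _ = (l * (1 / 2) ^ k0 * (4 * (5 * l + 8))) * (N + l) := by ring
      _ ≤ 1 * (N + l) := mul_le_mul_of_nonneg_right h4 (by positivity)
      _ ≤ 2 * N := by linarith
  nlinarith

theorem full : HasFullSupportMeasure sg := by
  let : MeasurableSpace Xs := borel Xs
  have : BorelSpace Xs := ⟨rfl⟩
  have : Nonempty Xs := ⟨⟨fun _ => false, fun k a b ha => by simp at ha⟩⟩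
  refine full_support sg continuous_sg fun U hU hUne => ?_
  obtain ⟨x, hx⟩ := hUne
  obtain ⟨l, hl⟩ := exists_cyl hU hx
  set C : Set Xs := {y | ∀ j < l, y.1 j = x.1 j} with hC
  have hCU : C ⊆ U := fun y hy => hl y hy
  have hCc : IsClopen C := by
    have h1 : C = ⋂ j ∈ Finset.range l, {y : Xs | y.1 j = x.1 j} := by
      ext y; simp [hC]
    have h2 : ∀ j, IsClopen {y : Xs | y.1 j = x.1 j} := fun j =>
      (isClopen_discrete ({x.1 j} : Set Bool)).preimage
        ((continuous_apply (A := fun _ : ℕ => Bool) j).comp continuous_subtype_val)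
    rw [h1]
    exact isClopen_biInter_finset fun j _ => h2 j
  obtain ⟨μ, hμ1, hμ2, hμ3⟩ := kb sg continuous_sg ⟨yy x.1 l (4 * (l + 2)), yy_mem x.2 _ _⟩ C hCc
    (1 / (2 * (5 * (l : ℝ) + 8))) (by
      filter_upwards [eventually_ge_atTop l] with N hN
      refine (freq (x0 := x.1) l N hN).trans (le_of_eq ?_)
      congr 2
      ext n
      simp only [mem_ofPred_eq, hC, sg_iter])
  refine ⟨μ, hμ1, hμ2, ?_⟩
  have h1 : 0 < μ.real C := lt_of_lt_of_le (by positivity) hμ3
  have h2 : 0 < μ C := by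
    rw [Measure.real] at h1
    exact (ENNReal.toReal_pos_iff.1 h1).1
  exact lt_of_lt_of_le h2 (measure_mono hCU)

/-! ### minimal points -/

/-- the zero point -/
def o : Xs := ⟨fun _ => false, fun k a b ha => by simp at ha⟩

lemma o_mem_closure (x : Xs) : o ∈ closure (range fun n : ℕ => sg^[n] x) := by
  rw [Metric.mem_closure_range_iff]
  intro ε hε
  obtain ⟨m, hm⟩ := exists_pow_lt_of_lt_one hε (by norm_num : (1 / 2 : ℝ) < 1)
  have : ∃ n, ∀ j < m, x.1 (n + j) = false := by
    by_cases h : ∃ n0, ∀ n ≥ n0, x.1 n = false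
    · obtain ⟨n0, hn0⟩ := h
      exact ⟨n0, fun j _ => hn0 _ (by omega)⟩
    · push Not at h
      obtain ⟨a, -, ha⟩ := h 0
      obtain ⟨b, hb, hb2⟩ := h (a + L m + 1)
      obtain ⟨p, -, -, hp⟩ := x.2 m a b (by simpa using ha) (by simpa using hb2) (by omega)
      exact ⟨p, hp⟩
  obtain ⟨n, hn⟩ := this
  refine ⟨n, lt_of_le_of_lt ((dist_le_iff _ _ m).2 fun j hj => ?_) hm⟩
  rw [sg_iter, hn j hj]
  rfl

lemma minimal_eq {x : Xs} (hx : IsMinimalPoint sg x) : x = o := by
  obtain ⟨-, -, -, h⟩ := hx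
  have h1 := h {o} (singleton_subset_iff.2 (o_mem_closure x)) isClosed_singleton
    (singleton_nonempty _) (by rw [image_singleton]; rfl)
  have h2 : x ∈ closure (range fun n : ℕ => sg^[n] x) := subset_closure ⟨0, rfl⟩
  rw [← h1] at h2
  exact h2

/-- There is a compact system with the asymptotic average shadowing property and with an
invariant measure of full support whose minimal points are not dense. -/
theorem result : ∃ (X : Type) (_ : MetricSpace X) (_ : CompactSpace X) (f : X → X),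
    Continuous f ∧ AASP f ∧ HasFullSupportMeasure f ∧ ¬ Dense {x | IsMinimalPoint f x} := by
  refine ⟨Xs, inferInstance, inferInstance, sg, continuous_sg, aasp, full, fun hd => ?_⟩
  have h1 : {x | IsMinimalPoint sg x} ⊆ {o} := fun x hx => minimal_eq hx
  have h2 : (fun n : ℕ => if n = 0 then true else false) ∈ XX := by
    intro k a b ha hb hab
    simp only [Bool.if_false_right, Bool.and_true, decide_eq_true_eq] at ha hb
    omega
  have h3 := closure_mono h1 (hd ⟨_, h2⟩)
  rw [closure_singleton, mem_singleton_iff] at h3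
  have h4 := congrFun (congrArg Subtype.val h3) 0
  simp [o] at h4

end Pool.Agent.Results.MP_9e49d7_an.ProximalShadowing
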